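import Pool.Agent.Lib.MP_2f4f34_gt.ZFCExample
import Pool.Agent.Lib.MP_2f4f34_gt.CountableCase

/-!
# Both versions of the question together
-/

set_option autoImplicit false

open Filter Topology Set Pointwise

namespace Pool.Agent.Results.MP_2f4f34_gt.FullAnswer

open Pool.Agent.MP_2f4f34_gt

/-- Both versions of Q1.  (a) In ZFC there is a metrizable (hence Frechet-Urysohn) group of
sequence-rank `ω₁`.  (b) A countable Frechet-Urysohn group of sequence-rank `ω₁` exists if and
only if the bounding number is `ω₁`; more precisely, countable non-discrete Frechet-Urysohn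
groups have sequence-rank at least `𝔟`, and countable non-discrete metrizable groups have
sequence-rank exactly `𝔟`. -/
theorem result :
    (∃ (G : Type) (_ : Group G) (t : TopologicalSpace G),
      IsTopologicalGroup G ∧ T2Space G ∧ TopologicalSpace.MetrizableSpace G ∧
      FrechetUrysohnSpace G ∧ seqRank G t = Cardinal.aleph 1) ∧
    ((∃ (G : Type) (_ : Group G) (t : TopologicalSpace G),
      IsTopologicalGroup G ∧ T2Space G ∧ Countable G ∧ FrechetUrysohnSpace G ∧
        seqRank G t = Cardinal.aleph 1) ↔ boundingNumber = Cardinal.aleph 1) ∧
    (∀ (G : Type) [Group G] [t : TopologicalSpace G] [IsTopologicalGroup G] [T2Space G],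
      Countable G → FrechetUrysohnSpace G → ¬ DiscreteTopology G →
        boundingNumber ≤ seqRank G t) ∧
    (∀ (G : Type) [Group G] [t : TopologicalSpace G] [IsTopologicalGroup G] [T2Space G],
      Countable G → TopologicalSpace.MetrizableSpace G → ¬ DiscreteTopology G →
        seqRank G t = boundingNumber) :=
  ⟨ZFCExample.main, CountableCase.main.2.2, CountableCase.main.1, CountableCase.main.2.1⟩

end Pool.Agent.Results.MP_2f4f34_gt.FullAnswer
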